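import Pool.Agent.H446.AP.Ops
import Pool.Agent.H446.AP3.Bog
import Pool.Agent.H446.AP3.Fek

/-!
# Algebraic accessory parameters of small height or with conjugates in a set of small capacity

Let `L_ω = L_0 + ω L_1 + ⋯ + ω ^ d L_d` with arbitrary differential operators `L_k` of order at most `n` with
coefficients in `ℤ[x]`, and let `ω` be an algebraic number, of any degree over `ℚ`. A prime `p` is bad for `ω` if for
some reduction `z ∈ 𝔽̄_p` of `ω` modulo a prime ideal over `p` the operator `L_z` over `𝔽̄_p(x)` does not have a full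
basis of rational solutions.

We show theorems of Bogomolov and of Fekete type: among the algebraic numbers `ω` of height less than `n / (4 d)`, and
among the algebraic integers `ω` with all conjugates in a compact set of capacity less than `exp (n / (2 d))`, only
finitely many have no bad primes larger than `N₀`. Their number has a bound which does not depend on the family. For
`n = 2` and an accessory parameter (`d = 1`) the second class contains all totally real integers with the conjugates in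
an interval of length less than `4 e = 10.87...`; Fekete's theorem, which needs no primes, reaches the length `4`.
A proportion `δ` of bad primes is possible if the bounds are multiplied, in the exponents, by `1 - δ`.

Proof. Modulo `p` at most `d p / n` elements of `𝔽̄_p` are good (a starting theorem). Let `P` be the minimal polynomial
of `ω` and `D` its degree. If a prime `p < n D / d` is good, then `P` has at most `d p / n` roots in `𝔽̄_p`, and
therefore `p ^ (D - d p / n)` divides the resultant of `P` and `P'`. By the prime number theorem the product of these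
powers is about `exp (n D ^ 2 / (2 d))`; but the resultant is at most about `exp (2 h D ^ 2)` for a number `ω` of height
`h`, and `c ^ (D ^ 2)` for an algebraic integer with all conjugates in a set of capacity less than `c`.
-/

set_option autoImplicit false

namespace Pool.Agent.Results.MP_0707f5_ag.SmallHeights

open Polynomial Finset

/-- `P` is the minimal polynomial over `ℤ` of an algebraic number `ω`, and of its conjugates. The degree of `ω` is
`P.natDegree`; its absolute logarithmic height is the logarithm of the Mahler measure of `P`, divided by the degree. -/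
def IsMinpoly (P : ℤ[X]) : Prop := Irreducible P ∧ 0 < P.natDegree ∧ 0 < P.leadingCoeff

/-- The operator `∑ a i ∂ ^ i` over `K(x)` has `e` solutions in `K(x)` that are linearly independent over the
constants. -/
def Sol {K : Type*} [Field K] {n : ℕ} (a : Fin (n + 1) → RatFunc K) (e : ℕ) : Prop :=
  ∃ D : Derivation K (RatFunc K) (RatFunc K), D RatFunc.X = 1 ∧
    ∃ y : Fin e → RatFunc K, (∀ j, ∑ i : Fin (n + 1), a i * (⇑D)^[(i : ℕ)] (y j) = 0) ∧
      ∀ c : Fin e → RatFunc K, (∀ j, D (c j) = 0) → ∑ j, c j * y j = 0 → ∀ j, c j = 0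

/-- The reduction modulo `p`. -/
noncomputable def red (p : ℕ) [Fact p.Prime] (f : ℤ[X]) : RatFunc (AlgebraicClosure (ZMod p)) :=
  aeval (RatFunc.X : RatFunc (AlgebraicClosure (ZMod p))) f

/-- The coefficients of `∑_k c ^ k L_k` over `𝔽̄_p(x)`, where `L_k = ∑ L k i ∂ ^ i`. -/
noncomputable def member {n d : ℕ} (p : ℕ) [Fact p.Prime] (L : Fin (d + 1) → Fin (n + 1) → ℤ[X])
    (c : RatFunc (AlgebraicClosure (ZMod p))) : Fin (n + 1) → RatFunc (AlgebraicClosure (ZMod p)) :=
  fun i => ∑ k : Fin (d + 1), c ^ (k : ℕ) * red p (L k i)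

/-- The prime `p` is bad for `ω`, with minimal polynomial `P`: for some reduction `z ∈ 𝔽̄_p` of `ω`, that is for some
root `z` of the reduction of `P`, the operator `L_z = ∑_k z ^ k L_k` does not have `e` independent solutions. -/
def BadPrime {n d : ℕ} (L : Fin (d + 1) → Fin (n + 1) → ℤ[X]) (e : ℕ) (P : ℤ[X]) (p : ℕ) : Prop :=
  ∃ _ : Fact p.Prime, ∃ z : AlgebraicClosure (ZMod p), aeval z P = 0 ∧ ¬ Sol (member p L (RatFunc.C z)) e

/-- Modulo `p` the operator `L_d` is not zero and has order at most `g`, or at least some member of the family has at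
most `g` independent rational solutions: the member at infinity `L_d`, or a member with a constant parameter `c`. -/
def Regular {n d : ℕ} (p : ℕ) [Fact p.Prime] (L : Fin (d + 1) → Fin (n + 1) → ℤ[X]) (g : ℕ) : Prop :=
  ((∃ i, red p (L (Fin.last d) i) ≠ 0) ∧ ∀ i : Fin (n + 1), g < i → red p (L (Fin.last d) i) = 0) ∨
    ¬ Sol (fun i => red p (L (Fin.last d) i)) (g + 1) ∨
    ∃ c : RatFunc (AlgebraicClosure (ZMod p)),
      (∃ D : Derivation (AlgebraicClosure (ZMod p)) (RatFunc (AlgebraicClosure (ZMod p)))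
        (RatFunc (AlgebraicClosure (ZMod p))), D RatFunc.X = 1 ∧ D c = 0) ∧ ¬ Sol (member p L c) (g + 1)

open Classical in
/-- The sum of `(1 - a p / deg P) log p` over the bad primes `N₀ < p ≤ deg P / a`. -/
noncomputable def weightedBadSum {n d : ℕ} (L : Fin (d + 1) → Fin (n + 1) → ℤ[X]) (e N₀ : ℕ) (a : ℝ) (P : ℤ[X]) : ℝ :=
  ∑ p ∈ (Icc 1 ⌊(P.natDegree : ℝ) / a⌋₊).filter fun p : ℕ => N₀ < p ∧ BadPrime L e P p,
    (1 - a * p / P.natDegree) * Real.log p

open Classical in
/-- The sum of `log p` over the bad primes `N₀ < p ≤ m` is at most `δ m + K`, for all `m`. -/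
def FewBad {n d : ℕ} (L : Fin (d + 1) → Fin (n + 1) → ℤ[X]) (e N₀ : ℕ) (δ K : ℝ) (P : ℤ[X]) : Prop :=
  ∀ m : ℕ, ∑ p ∈ (Icc 1 m).filter fun p : ℕ => N₀ < p ∧ BadPrime L e P p, Real.log p ≤ δ * m + K

/-- The `N`-th diameter of `E` is at most `q`: the geometric mean of the distances of `N` points of `E` is at most `q`.
The infimum of these `q`, for all `N`, is the transfinite diameter or capacity of a compact set `E`. -/
def DiamLE (E : Set ℂ) (N : ℕ) (q : ℝ) : Prop :=
  ∀ s : Finset ℂ, (s : Set ℂ) ⊆ E → s.card = N → ∏ x ∈ s, ∏ y ∈ s.erase x, ‖x - y‖ ≤ q ^ (N * (N - 1))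

/-- The logarithm of the absolute value of the resultant of `P` and its derivative, which is the discriminant of `P`
multiplied by the leading coefficient. -/
noncomputable def logDisc (P : ℤ[X]) : ℝ :=
  Real.log |((resultant P (derivative P) P.natDegree (P.natDegree - 1) : ℤ) : ℝ)|

/-- The property `Sol`, in the form used by the sieve. -/
def fam {n d : ℕ} (L : Fin (d + 1) → Fin (n + 1) → ℤ[X]) (e : ℕ) : Pool.Agent.H446.AP.Fam :=
  fun p _ z => Sol (member p L (RatFunc.C z)) e

lemma fam_cls {n d g e : ℕ} (hd : 1 ≤ d) (hg : g < e) (N₀ : ℕ) (L : Fin (d + 1) → Fin (n + 1) → ℤ[X])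
    (hL : ∀ (p : ℕ) [Fact p.Prime], N₀ < p → Regular p L g) :
    Pool.Agent.H446.AP.Cls (fam L e) ((d : ℝ) / ((e - g : ℕ) : ℝ)) N₀ := by
  intro p hp hpN T hT
  have h1 := Pool.Agent.H446.AP.classes (p := p) hd hg (fun k i => red p (L k i)) (hL p hpN) T hT
  have h2 : (0 : ℝ) < ((e - g : ℕ) : ℝ) := by
    have : 0 < e - g := by omega
    exact_mod_cast this
  rw [div_mul_eq_mul_div, le_div_iff₀ h2]
  exact_mod_cast h1

/-- **Theorem.** Let `d ≥ 1`, `g < e`, `a = d / (e - g)` and `N₀` be given. In the following, `L_0, …, L_d` are arbitrary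
differential operators over `ℤ[x]` which are `Regular` modulo the primes `p > N₀` (for example, `L_d` has order at most
`g` and is not zero modulo `p`), and a prime `p` is bad for `ω` if some reduction of `∑ ω ^ k L_k` modulo `p` does not
have `e` independent rational solutions. All constants do not depend on the family.
(1) For every `ε > 0` there is `D₀` such that for all `ω` of degree `D ≥ D₀` the sum of `(1 - a p / D) log p` over the bad
primes `N₀ < p ≤ D / a` is at least `(1 / (2 a) - ε - logDisc / D ^ 2) D`.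
Let `0 ≤ δ < 1`, `K`, and `ε > 0` be given. Consider the `ω` such that for all `m` the sum of `log p` over the bad primes
`N₀ < p ≤ m` is at most `δ m + K`.
(2) For all `H`, the number of these `ω` (up to conjugation) of logarithmic height at most `H` and with
`logDisc ≤ ((1 - δ) / (2 a) - ε) D ^ 2`, `D` the degree of `ω`, is finite and bounded.
(3) The number of these `ω` (up to conjugation) of height at most `(1 - δ) / (4 a) - ε` is finite and bounded.
(4) Let `E` be a set in a disc with radius `R` and center `0`, with an `N`-th diameter at most `q`, and let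
`2 l + log q ≤ (1 - δ) / (2 a) - ε`. The number of these `ω` (up to conjugation) with all conjugates in `E` and with
a minimal polynomial with a leading coefficient at most `exp (l D)` is finite and bounded. -/
theorem result :
    ∀ (d g e N₀ : ℕ) (a : ℝ), 1 ≤ d → g < e → a = (d : ℝ) / ((e - g : ℕ) : ℝ) →
    (∀ ε : ℝ, 0 < ε → ∃ D₀ : ℕ, ∀ (n : ℕ) (L : Fin (d + 1) → Fin (n + 1) → ℤ[X]),
      (∀ (p : ℕ) [Fact p.Prime], N₀ < p → Regular p L g) → ∀ P : ℤ[X], IsMinpoly P → D₀ ≤ P.natDegree →
        (1 / (2 * a) - ε - logDisc P / (P.natDegree : ℝ) ^ 2) * P.natDegree ≤ weightedBadSum L e N₀ a P) ∧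
    ∀ δ K ε : ℝ, 0 ≤ δ → δ < 1 → 0 < ε →
      (∀ H : ℝ, ∃ B : ℕ, ∀ (n : ℕ) (L : Fin (d + 1) → Fin (n + 1) → ℤ[X]),
        (∀ (p : ℕ) [Fact p.Prime], N₀ < p → Regular p L g) →
          {P : ℤ[X] | IsMinpoly P ∧ FewBad L e N₀ δ K P ∧
            (P.map (Int.castRingHom ℂ)).mahlerMeasure ≤ Real.exp (H * P.natDegree) ∧
            logDisc P ≤ ((1 - δ) / (2 * a) - ε) * (P.natDegree : ℝ) ^ 2}.encard ≤ B) ∧
      (∃ B : ℕ, ∀ (n : ℕ) (L : Fin (d + 1) → Fin (n + 1) → ℤ[X]),
        (∀ (p : ℕ) [Fact p.Prime], N₀ < p → Regular p L g) →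
          {P : ℤ[X] | IsMinpoly P ∧ FewBad L e N₀ δ K P ∧ (P.map (Int.castRingHom ℂ)).mahlerMeasure ≤
            Real.exp (((1 - δ) / (4 * a) - ε) * P.natDegree)}.encard ≤ B) ∧
      (∀ (R l q : ℝ) (N : ℕ), 2 ≤ N → 1 ≤ q → 2 * l + Real.log q ≤ (1 - δ) / (2 * a) - ε →
        ∃ B : ℕ, ∀ (n : ℕ) (L : Fin (d + 1) → Fin (n + 1) → ℤ[X]),
          (∀ (p : ℕ) [Fact p.Prime], N₀ < p → Regular p L g) →
            ∀ E : Set ℂ, (∀ z ∈ E, ‖z‖ ≤ R) → DiamLE E N q →
              {P : ℤ[X] | IsMinpoly P ∧ FewBad L e N₀ δ K P ∧ (∀ z : ℂ, aeval z P = 0 → z ∈ E) ∧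
                (P.leadingCoeff : ℝ) ≤ Real.exp (l * P.natDegree)}.encard ≤ B) := by
  intro d g e N₀ a hd hg ha
  classical
  have hd0 : (0 : ℝ) < d := by exact_mod_cast hd
  have he0 : (0 : ℝ) < ((e - g : ℕ) : ℝ) := by
    have : 0 < e - g := by omega
    exact_mod_cast this
  have ha0 : 0 < a := by
    rw [ha]
    positivity
  have hcls : ∀ (n : ℕ) (L : Fin (d + 1) → Fin (n + 1) → ℤ[X]),
      (∀ (p : ℕ) [Fact p.Prime], N₀ < p → Regular p L g) → Pool.Agent.H446.AP.Cls (fam L e) a N₀ := by
    intro n L hL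
    rw [ha]
    exact fam_cls hd hg N₀ L hL
  refine ⟨?_, ?_⟩
  · intro ε hε
    obtain ⟨D₀, hD₀⟩ := Pool.Agent.H446.AP3.bad_ge ha0 hε N₀
    refine ⟨D₀, fun n L hL P hP hPD => ?_⟩
    have h1 := hD₀ (fam L e) (hcls n L hL) P hP hPD
    have hD : (0 : ℝ) < P.natDegree := by exact_mod_cast hP.2.1
    have h2 : (1 / (2 * a) - ε - logDisc P / (P.natDegree : ℝ) ^ 2) * P.natDegree =
        (1 / (2 * a) - ε) * P.natDegree - logDisc P / P.natDegree := by
      field_simp
    rw [h2]
    exact h1
  intro δ K ε hδ hδ1 hε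
  -- the main part
  have main : ∀ (H ε : ℝ), 0 < ε → ∃ B : ℕ, ∀ (n : ℕ) (L : Fin (d + 1) → Fin (n + 1) → ℤ[X]),
        (∀ (p : ℕ) [Fact p.Prime], N₀ < p → Regular p L g) →
          {P : ℤ[X] | IsMinpoly P ∧ FewBad L e N₀ δ K P ∧
            (P.map (Int.castRingHom ℂ)).mahlerMeasure ≤ Real.exp (H * P.natDegree) ∧
            logDisc P ≤ ((1 - δ) / (2 * a) - ε) * (P.natDegree : ℝ) ^ 2}.encard ≤ B := by
    intro H ε hε
    obtain ⟨D₀, hD₀⟩ := Pool.Agent.H446.AP3.degree_lt ha0 hδ hδ1.le (abs_nonneg K) hε N₀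
    obtain ⟨S, hS⟩ : ∃ S : Set ℤ[X], S = {P : ℤ[X] | P.natDegree ≤ D₀ ∧
        (P.map (Int.castRingHom ℂ)).mahlerMeasure ≤ Real.toNNReal (Real.exp (|H| * D₀))} := ⟨_, rfl⟩
    have hSfin : S.Finite := by
      rw [hS]
      exact finite_mahlerMeasure_le D₀ _
    refine ⟨hSfin.toFinset.card, fun n L hL => ?_⟩
    refine le_trans (Set.encard_le_encard (t := S) ?_) (le_of_eq hSfin.encard_eq_coe_toFinset_card)
    rintro P ⟨h1, h2, h3, h4⟩
    have h5 : P.natDegree < D₀ := by
      refine hD₀ (fam L e) (hcls n L hL) P h1 h4 fun m => ?_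
      refine le_trans ?_ ((h2 m).trans (by linarith [le_abs_self K]))
      exact le_of_eq rfl
    rw [hS]
    refine ⟨h5.le, ?_⟩
    rw [Real.coe_toNNReal']
    refine (h3.trans (Real.exp_le_exp.2 ?_)).trans (le_max_left _ _)
    have h6 : (P.natDegree : ℝ) ≤ D₀ := by exact_mod_cast h5.le
    calc H * P.natDegree ≤ |H| * P.natDegree :=
          mul_le_mul_of_nonneg_right (le_abs_self H) (Nat.cast_nonneg _)
      _ ≤ |H| * D₀ := mul_le_mul_of_nonneg_left h6 (abs_nonneg H)
  refine ⟨fun H => main H ε hε, ?_, ?_⟩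
  · -- small heights
    obtain ⟨H, hH⟩ : ∃ H : ℝ, H = (1 - δ) / (4 * a) - ε := ⟨_, rfl⟩
    obtain ⟨B₁, hB₁⟩ := main H ε hε
    -- the degrees for which the logarithmic term is not small
    obtain ⟨D₁, hD₁⟩ : ∃ D₁ : ℕ, ∀ D : ℝ, (D₁ : ℝ) ≤ D → 2 * Real.log D ≤ ε * D := by
      have h1 := Real.isLittleO_log_id_atTop.bound (half_pos hε)
      obtain ⟨x₀, hx₀⟩ := Filter.eventually_atTop.1 h1
      obtain ⟨D₁, hD₁⟩ := exists_nat_ge (max x₀ 1)
      refine ⟨D₁, fun D hD => ?_⟩
      have h2 := hx₀ D (((le_max_left _ _).trans hD₁).trans hD)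
      have h3 : 1 ≤ D := ((le_max_right _ _).trans hD₁).trans hD
      rw [id, Real.norm_of_nonneg (Real.log_nonneg h3), Real.norm_of_nonneg (by linarith)] at h2
      linarith
    obtain ⟨S, hS⟩ : ∃ S : Set ℤ[X], S = {P : ℤ[X] | P.natDegree ≤ D₁ ∧
        (P.map (Int.castRingHom ℂ)).mahlerMeasure ≤ Real.toNNReal (Real.exp (|H| * D₁))} := ⟨_, rfl⟩
    have hSfin : S.Finite := by
      rw [hS]
      exact finite_mahlerMeasure_le D₁ _
    refine ⟨hSfin.toFinset.card + B₁, fun n L hL => ?_⟩
    have hsub : {P : ℤ[X] | IsMinpoly P ∧ FewBad L e N₀ δ K P ∧ (P.map (Int.castRingHom ℂ)).mahlerMeasure ≤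
            Real.exp (((1 - δ) / (4 * a) - ε) * P.natDegree)} ⊆ S ∪
          {P : ℤ[X] | IsMinpoly P ∧ FewBad L e N₀ δ K P ∧
            (P.map (Int.castRingHom ℂ)).mahlerMeasure ≤ Real.exp (H * P.natDegree) ∧
            logDisc P ≤ ((1 - δ) / (2 * a) - ε) * (P.natDegree : ℝ) ^ 2} := by
      rintro P ⟨h1, h2, h3⟩
      rw [← hH] at h3
      rcases le_or_gt P.natDegree D₁ with h4 | h4
      · left
        rw [hS]
        refine ⟨h4, ?_⟩
        rw [Real.coe_toNNReal']
        refine (h3.trans (Real.exp_le_exp.2 ?_)).trans (le_max_left _ _)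
        have h6 : (P.natDegree : ℝ) ≤ D₁ := by exact_mod_cast h4
        calc H * P.natDegree ≤ |H| * P.natDegree :=
              mul_le_mul_of_nonneg_right (le_abs_self H) (Nat.cast_nonneg _)
          _ ≤ |H| * D₁ := mul_le_mul_of_nonneg_left h6 (abs_nonneg H)
      · right
        refine ⟨h1, h2, h3, ?_⟩
        have hD : (1 : ℝ) ≤ P.natDegree := by exact_mod_cast h1.2.1
        have hm : 1 ≤ (P.map (Int.castRingHom ℂ)).mahlerMeasure :=
          Pool.Agent.H446.AP.one_le_mm h1.1.ne_zero
        have h5 : Real.log (Pool.Agent.H446.AP.mm P) ≤ P.natDegree * H := by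
          rw [← Real.log_exp ((P.natDegree : ℝ) * H), mul_comm (P.natDegree : ℝ)]
          exact Real.log_le_log (by linarith [show Pool.Agent.H446.AP.mm P =
            (P.map (Int.castRingHom ℂ)).mahlerMeasure from rfl]) h3
        have hH0 : 0 ≤ H := by
          have h6 : 0 ≤ Real.log (Pool.Agent.H446.AP.mm P) := Real.log_nonneg hm
          by_contra hneg
          push Not at hneg
          have : (P.natDegree : ℝ) * H < 0 := mul_neg_of_pos_of_neg (by linarith) hneg
          linarith
        have h7 := Pool.Agent.H446.AP.log_resultant_deriv_le h1 h5 hH0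
        have h8 := hD₁ P.natDegree (by exact_mod_cast h4.le)
        have h9 : 2 * (P.natDegree : ℝ) * Real.log P.natDegree ≤ ε * (P.natDegree : ℝ) ^ 2 := by nlinarith
        have h10 : 2 * H = (1 - δ) / (2 * a) - 2 * ε := by
          rw [hH]
          field_simp
          ring
        have h11 : ((1 - δ) / (2 * a) - ε) * (P.natDegree : ℝ) ^ 2 =
            2 * (P.natDegree : ℝ) ^ 2 * H + ε * (P.natDegree : ℝ) ^ 2 := by
          have : 2 * (P.natDegree : ℝ) ^ 2 * H = (P.natDegree : ℝ) ^ 2 * (2 * H) := by ring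
          rw [this, h10]
          ring
        rw [h11]
        refine h7.trans ?_
        linarith
    refine (Set.encard_le_encard hsub).trans ((Set.encard_union_le _ _).trans ?_)
    rw [Nat.cast_add]
    exact add_le_add (le_of_eq hSfin.encard_eq_coe_toFinset_card) (hB₁ n L hL)
  · -- capacities
    intro R l q N hN hq hlq
    obtain ⟨H, hH⟩ : ∃ H : ℝ, H = |l| + Real.log (max R 1) := ⟨_, rfl⟩
    obtain ⟨B₁, hB₁⟩ := main H ε hε
    obtain ⟨S, hS⟩ : ∃ S : Set ℤ[X], S = {P : ℤ[X] | P.natDegree ≤ N ∧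
        (P.map (Int.castRingHom ℂ)).mahlerMeasure ≤ Real.toNNReal (Real.exp (|H| * N))} := ⟨_, rfl⟩
    have hSfin : S.Finite := by
      rw [hS]
      exact finite_mahlerMeasure_le N _
    refine ⟨hSfin.toFinset.card + B₁, fun n L hL E hER hE => ?_⟩
    have hsub : {P : ℤ[X] | IsMinpoly P ∧ FewBad L e N₀ δ K P ∧ (∀ z : ℂ, aeval z P = 0 → z ∈ E) ∧
                (P.leadingCoeff : ℝ) ≤ Real.exp (l * P.natDegree)} ⊆ S ∪
          {P : ℤ[X] | IsMinpoly P ∧ FewBad L e N₀ δ K P ∧
            (P.map (Int.castRingHom ℂ)).mahlerMeasure ≤ Real.exp (H * P.natDegree) ∧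
            logDisc P ≤ ((1 - δ) / (2 * a) - ε) * (P.natDegree : ℝ) ^ 2} := by
      rintro P ⟨h1, h2, h3, h4⟩
      have hD : (1 : ℝ) ≤ P.natDegree := by exact_mod_cast h1.2.1
      have hlc0 : (0 : ℝ) < P.leadingCoeff := by exact_mod_cast h1.2.2
      have h4' : Real.log (P.leadingCoeff : ℝ) ≤ l * P.natDegree := (Real.log_le_iff_le_exp hlc0).2 h4
      have h5 : (P.map (Int.castRingHom ℂ)).mahlerMeasure ≤ Real.exp (H * P.natDegree) := by
        refine (Pool.Agent.H446.AP3.mm_le (R := max R 1) (l := |l|) (le_max_right _ _) h1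
          (fun z hz => (hER z (h3 z hz)).trans (le_max_left _ _)) ?_).trans (le_of_eq (by rw [hH]))
        exact h4'.trans (mul_le_mul_of_nonneg_right (le_abs_self l) (Nat.cast_nonneg _))
      rcases le_or_gt P.natDegree N with h6 | h6
      · left
        rw [hS]
        refine ⟨h6, ?_⟩
        rw [Real.coe_toNNReal']
        refine (h5.trans (Real.exp_le_exp.2 ?_)).trans (le_max_left _ _)
        have h7 : (P.natDegree : ℝ) ≤ N := by exact_mod_cast h6
        calc H * P.natDegree ≤ |H| * P.natDegree :=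
              mul_le_mul_of_nonneg_right (le_abs_self H) (Nat.cast_nonneg _)
          _ ≤ |H| * N := mul_le_mul_of_nonneg_left h7 (abs_nonneg H)
      · right
        refine ⟨h1, h2, h5, ?_⟩
        have h7 := Pool.Agent.H446.AP3.log_rd_le hN hq hE h1 h6.le h3 h4'
        refine h7.trans ?_
        exact mul_le_mul_of_nonneg_right hlq (sq_nonneg _)
    refine (Set.encard_le_encard hsub).trans ((Set.encard_union_le _ _).trans ?_)
    rw [Nat.cast_add]
    exact add_le_add (le_of_eq hSfin.encard_eq_coe_toFinset_card) (hB₁ n L hL)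

end Pool.Agent.Results.MP_0707f5_ag.SmallHeights
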