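import Pool.Agent.H446.AP9.Null
import Pool.Agent.H446.AP9.Eng

/-!
# Nilpotent `p`-curvature of the connections on a very stable bundle

Let `C` be a smooth projective curve over `ℚ` and `E` a vector bundle of rank `r` with connections on `C`. The
connections on `E` are `∇_ω = ∇_0 + ∑ ω_s Φ_s`, where the `Φ_s` are a basis of the Higgs fields `H⁰(C, End E ⊗ Ω)`. The
bundle `E` is very stable if no Higgs field except zero is nilpotent. The generic stable bundle is very stable
(Drinfeld, Laumon), and then there are `m = r² (g - 1) + 1` parameters.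

We expand everything at a rational point: `∇_ω = d/dz + A_0 + ∑ ω_s A_s` with matrices `A_0, A_s` over `ℚ⟦z⟧`. The entries
are algebraic power series, so after the substitution `z ↦ N z` they have integral coefficients (Eisenstein). A linear
subspace of the Higgs fields (on any bundle) whose only nilpotent element is zero is allowed, too.

Proof. The coefficients of the characteristic polynomial of the `p`-curvature of `∇_ω` are polynomials in `ω` over
`F_p⟦z⟧`, and the coefficient of `T ^ j` has the leading form `h_j ^ p`, where `h_j` is the coefficient of `T ^ j` in the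
characteristic polynomial of `∑ ω_s A_s`. By the Nullstellensatz `ω_s ^ e` is in the ideal of the coefficients
`h_{jl}` of `z ^ l` in `h_j`, for some `e`, so at a prime `p` where the `p`-curvature is nilpotent there are polynomials
with the leading forms `ω_s ^ (e p)` which are divisible by `p` at `ω`. Hence a determinant formed from a basis of
`ℚ(ω)` that consists of monomials in the `ω_s` is divisible by large powers of these primes, and the heights bound it
from above.
-/

set_option autoImplicit false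

namespace Pool.Agent.Results.MP_0707f5_ag.VeryStable

open Polynomial Finset

/-- The absolute logarithmic height of the algebraic number `z` is at most `H`: for the minimal polynomial `P` of `z`
over `ℤ`, the Mahler measure is at most `exp (deg P * H)`. -/
def HeightLE (z : ℂ) (H : ℝ) : Prop := ∃ P : ℤ[X], Irreducible P ∧ 0 < P.natDegree ∧ 0 < P.leadingCoeff ∧
  aeval z P = 0 ∧ (P.map (Int.castRingHom ℂ)).mahlerMeasure ≤ Real.exp (P.natDegree * H)

/-- The algebraic number `z` is integral at `p`. -/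
def IntegralAt (p : ℕ) (z : ℂ) : Prop := ∃ s : ℤ, ¬ (p : ℤ) ∣ s ∧ IsIntegral ℤ ((s : ℂ) * z)

/-- The matrices of the Higgs fields. -/
abbrev Fields (r m : ℕ) : Type := Fin m → Matrix (Fin r) (Fin r) (PowerSeries ℤ)

/-- The Higgs field `∑ c_s A_s`. -/
noncomputable def higgs {r m : ℕ} (A : Fields r m) (c : Fin m → ℂ) : Matrix (Fin r) (Fin r) (PowerSeries ℂ) :=
  Matrix.of fun i j => ∑ s, PowerSeries.C (c s) * PowerSeries.map (Int.castRingHom ℂ) (A s i j)

/-- The only `c ∈ ℂ ^ m` such that the Higgs field `∑ c_s A_s` is nilpotent is `c = 0`. -/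
def IsVeryStable {r m : ℕ} (A : Fields r m) : Prop := ∀ c : Fin m → ℂ, IsNilpotent (higgs A c) → c = 0

/-- The matrix `A_0 + ∑ ω_s A_s` of the connection `∇_ω`. -/
noncomputable def conn {r m : ℕ} (A₀ : Matrix (Fin r) (Fin r) (PowerSeries ℤ)) (A : Fields r m) (ω : Fin m → ℂ) :
    Matrix (Fin r) (Fin r) (PowerSeries ℂ) :=
  Matrix.of fun i j => PowerSeries.map (Int.castRingHom ℂ) (A₀ i j) + higgs A ω i j

/-- The matrices `G_0 = 1` and `G_{k+1} = G_k' + B G_k`. The columns of `G_k` are the vectors `∇ ^ k e_j` for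
`∇ = d/dz + B`, see `curv_spec`; in characteristic `p` the matrix `G_p` is the matrix of the `p`-curvature. -/
noncomputable def curv {r : ℕ} {K : Type*} [CommRing K] (B : Matrix (Fin r) (Fin r) (PowerSeries K)) :
    ℕ → Matrix (Fin r) (Fin r) (PowerSeries K)
  | 0 => 1
  | k + 1 => Matrix.of fun i j => PowerSeries.derivative K (curv B k i j) + (B * curv B k) i j

/-- The `p`-curvature of `∇_ω` vanishes modulo `p`. -/
def Vanishing {r m : ℕ} (A₀ : Matrix (Fin r) (Fin r) (PowerSeries ℤ)) (A : Fields r m) (p : ℕ)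
    (ω : Fin m → ℂ) : Prop :=
  ∀ i j l, IntegralAt p (PowerSeries.coeff l (curv (conn A₀ A ω) p i j) / p)

/-- The `p`-curvature of `∇_ω` is nilpotent modulo `p`: modulo `p` the characteristic polynomial of `G_p` is `T ^ r`. -/
def Nilpotent {r m : ℕ} (A₀ : Matrix (Fin r) (Fin r) (PowerSeries ℤ)) (A : Fields r m) (p : ℕ)
    (ω : Fin m → ℂ) : Prop :=
  ∀ (j : Fin r) (l : ℕ), IntegralAt p (PowerSeries.coeff l ((curv (conn A₀ A ω) p).charpoly.coeff j) / p)

/-- The prime `p` is good for `ω`. -/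
def Good {r m : ℕ} (A₀ : Matrix (Fin r) (Fin r) (PowerSeries ℤ)) (A : Fields r m) (p : ℕ)
    (ω : Fin m → ℂ) : Prop :=
  (∀ s, IntegralAt p (ω s)) ∧ Nilpotent A₀ A p ω

open Classical in
/-- The sum of `log p / p` over the primes `y < p ≤ x` which are not good. -/
noncomputable def badSum {r m : ℕ} (A₀ : Matrix (Fin r) (Fin r) (PowerSeries ℤ)) (A : Fields r m) (y x : ℝ)
    (ω : Fin m → ℂ) : ℝ :=
  ∑ p ∈ (Icc 1 ⌊x⌋₊).filter fun p : ℕ => p.Prime ∧ y < p ∧ ¬ Good A₀ A p ω, Real.log p / p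

/-- The degree of the field `ℚ(ω)`. -/
noncomputable def fieldDegree {m : ℕ} (ω : Fin m → ℂ) : ℕ :=
  Module.finrank ℚ (IntermediateField.adjoin ℚ (Set.range ω))

/-- The least `D` such that the monomials in the `ω_s` of degree at most `D` span the field `ℚ(ω)` over `ℚ`. -/
noncomputable def spanDegree {m : ℕ} (ω : Fin m → ℂ) : ℕ :=
  sInf {D | ∀ z ∈ IntermediateField.adjoin ℚ (Set.range ω), z ∈ Submodule.span ℚ
    {y : ℂ | ∃ a : Fin m →₀ ℕ, ∑ s, a s ≤ D ∧ y = ∏ s, ω s ^ a s}}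

/-- The `ω` with coordinates of logarithmic height at most `H` for which the sum of `log p / p` over the bad primes
`y < p ≤ x` is at most `(1 - β) log (x / y) + M`. There is no condition on their degree. -/
def Few {r m : ℕ} (A₀ : Matrix (Fin r) (Fin r) (PowerSeries ℤ)) (A : Fields r m) (β M y x H : ℝ) :
    Set (Fin m → ℂ) :=
  {ω | (∀ s, HeightLE (ω s) H) ∧ badSum A₀ A y x ω ≤ (1 - β) * Real.log (x / y) + M}

/-! ### The meaning of `curv` -/

/-- The columns of `G_k` are the vectors `∇ ^ k e_j`. -/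
lemma curv_spec {r : ℕ} {K : Type*} [CommRing K] (B : Matrix (Fin r) (Fin r) (PowerSeries K)) (k : ℕ) (j : Fin r) :
    (fun v : Fin r → PowerSeries K => fun i => PowerSeries.derivative K (v i) + ∑ l, B i l * v l)^[k]
      (Pi.single j 1) = fun i => curv B k i j := by
  induction k with
  | zero =>
    funext i
    show (Pi.single j 1 : Fin r → PowerSeries K) i = (1 : Matrix (Fin r) (Fin r) (PowerSeries K)) i j
    rw [Pi.single_apply, Matrix.one_apply]
  | succ k ih =>
    rw [Function.iterate_succ_apply', ih]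
    funext i
    show PowerSeries.derivative K (curv B k i j) + ∑ l, B i l * curv B k l j =
      PowerSeries.derivative K (curv B k i j) + (B * curv B k) i j
    rw [Matrix.mul_apply]

/-! ### Translation -/

lemma curv_eq {r : ℕ} {K : Type*} [CommRing K] (B : Matrix (Fin r) (Fin r) (PowerSeries K)) (k : ℕ) :
    curv B k = Pool.Agent.H446.AP4.curv (fun f => PowerSeries.derivative K f) 1 B k := by
  induction k with
  | zero => rfl
  | succ k ih =>
    refine Matrix.ext fun i j => ?_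
    rw [Pool.Agent.H446.AP4.curv_succ, ← ih]
    have h1 : PowerSeries.derivative K (1 : PowerSeries K) = 0 := Derivation.map_one_eq_zero _
    show PowerSeries.derivative K (curv B k i j) + (B * curv B k) i j = _
    rw [h1, mul_zero, zero_mul, sub_zero, one_mul]

lemma curv_conn {r m : ℕ} (A₀ : Matrix (Fin r) (Fin r) (PowerSeries ℤ)) (A : Fields r m) (ω : Fin m → ℂ) (p : ℕ) :
    curv (conn A₀ A ω) p = Pool.Agent.H446.AP9.gm p A₀ A ω := curv_eq _ _

lemma mem_iff {p : ℕ} [hp : Fact p.Prime] (z : ℂ) :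
    (∃ y ∈ Pool.Agent.H446.AP4.pInt p, z = p * y) ↔ IntegralAt p (z / p) := by
  have hp0 : (p : ℂ) ≠ 0 := by exact_mod_cast hp.out.ne_zero
  constructor
  · rintro ⟨y, hy, rfl⟩
    rw [mul_div_cancel_left₀ _ hp0]
    exact hy
  · intro h
    exact ⟨z / p, h, by rw [mul_div_cancel₀ _ hp0]⟩

lemma mem_prs {y x : ℝ} (hx : 0 ≤ x) {p : ℕ} :
    p ∈ Pool.Agent.H446.AP2.prs y x ↔ p.Prime ∧ y < p ∧ (p : ℝ) ≤ x := by
  rw [Pool.Agent.H446.AP2.prs, mem_filter, Pool.Agent.H446.AP.mem_pr hx]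
  tauto

lemma badSum_eq {r m : ℕ} (A₀ : Matrix (Fin r) (Fin r) (PowerSeries ℤ)) (A : Fields r m) {y x : ℝ} (hx : 0 ≤ x)
    (ω : Fin m → ℂ) : Pool.Agent.H446.AP5.bad5 (fun p => Good A₀ A p ω) y x = badSum A₀ A y x ω := by
  classical
  unfold Pool.Agent.H446.AP5.bad5 badSum
  refine Finset.sum_congr ?_ fun _ _ => rfl
  ext p
  rw [mem_filter, mem_prs hx, mem_filter, mem_Icc, Nat.le_floor_iff hx]
  constructor
  · rintro ⟨⟨h1, h2, h3⟩, h4⟩
    exact ⟨⟨h1.one_lt.le, h3⟩, h1, h2, h4⟩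
  · rintro ⟨⟨-, h3⟩, h1, h2, h4⟩
    exact ⟨⟨h1, h2, h3⟩, h4⟩

lemma height_iff {z : ℂ} {H : ℝ} : HeightLE z H ↔ ∃ P : ℤ[X], Pool.Agent.H446.AP.Orb P ∧
    Real.log (Pool.Agent.H446.AP.mm P) ≤ P.natDegree * H ∧ aeval z P = 0 := by
  constructor
  · rintro ⟨P, h1, h2, h3, h4, h5⟩
    refine ⟨P, ⟨h1, h2, h3⟩, ?_, h4⟩
    have h6 := Pool.Agent.H446.AP.one_le_mm h1.ne_zero
    have h7 := Real.log_le_log (by linarith) (show Pool.Agent.H446.AP.mm P ≤ _ from h5)
    rwa [Real.log_exp] at h7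
  · rintro ⟨P, ⟨h1, h2, h3⟩, h4, h5⟩
    refine ⟨P, h1, h2, h3, h5, ?_⟩
    have h6 := Pool.Agent.H446.AP.one_le_mm h1.ne_zero
    have h7 := Real.exp_le_exp.2 h4
    rwa [Real.exp_log (by linarith)] at h7

/-- A matrix that vanishes modulo `p` is nilpotent modulo `p`. -/
lemma nilp_of_vanish {n p : ℕ} [Fact p.Prime] {M : Matrix (Fin n) (Fin n) (PowerSeries ℂ)}
    (hM : ∀ i j l, ∃ y ∈ Pool.Agent.H446.AP4.pInt p, PowerSeries.coeff l (M i j) = p * y) (j : Fin n) (l : ℕ) :
    ∃ y ∈ Pool.Agent.H446.AP4.pInt p, PowerSeries.coeff l (M.charpoly.coeff j) = p * y := by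
  choose y hy hy' using hM
  let N : Matrix (Fin n) (Fin n) (PowerSeries (Pool.Agent.H446.AP4.pInt p)) := Matrix.of fun i j =>
    PowerSeries.mk fun l => ((p : ℕ) : Pool.Agent.H446.AP4.pInt p) * ⟨y i j l, hy i j l⟩
  have hN : ∀ i j l, PowerSeries.coeff l (N i j) = ((p : ℕ) : Pool.Agent.H446.AP4.pInt p) * ⟨y i j l, hy i j l⟩ := by
    intro i j l
    simp only [N, Matrix.of_apply, PowerSeries.coeff_mk]
  have h2 : N.map (PowerSeries.map (Pool.Agent.H446.AP4.pInt p).subtype) = M := by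
    ext1 i j
    ext l
    rw [Matrix.map_apply, PowerSeries.coeff_map, hy' i j l, hN]
    rfl
  obtain ⟨ψ, hψ⟩ : ∃ ψ : Pool.Agent.H446.AP4.pInt p →+* Pool.Agent.H446.AP4.Kap p,
    ψ = Ideal.Quotient.mk (Ideal.span {((p : ℕ) : Pool.Agent.H446.AP4.pInt p)}) := ⟨_, rfl⟩
  have h3 : N.map (PowerSeries.map ψ) = 0 := by
    ext1 i j
    ext l
    rw [Matrix.map_apply, PowerSeries.coeff_map, Matrix.zero_apply, map_zero, hN, hψ,
      Ideal.Quotient.eq_zero_iff_mem]
    exact Ideal.mul_mem_right _ _ (Ideal.mem_span_singleton_self _)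
  have h5 : ψ (PowerSeries.coeff l (N.charpoly.coeff j)) = 0 := by
    have h4 : ψ (PowerSeries.coeff l (N.charpoly.coeff j)) =
        PowerSeries.coeff l ((N.map (PowerSeries.map ψ)).charpoly.coeff j) := by
      rw [Matrix.charpoly_map, coeff_map, PowerSeries.coeff_map]
    rw [h4, h3, Matrix.charpoly_zero, coeff_X_pow, Fintype.card_fin, if_neg (Nat.ne_of_lt j.2), map_zero]
  rw [hψ] at h5
  obtain ⟨y, hy, hy'⟩ := (Pool.Agent.H446.AP4.mk_eq_zero_iff _).1 h5
  refine ⟨y, hy, ?_⟩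
  rw [← hy', ← h2, Matrix.charpoly_map, coeff_map, PowerSeries.coeff_map]
  rfl

/-- The test at a good prime. -/
lemma test {r m e : ℕ} (A₀ : Matrix (Fin r) (Fin r) (PowerSeries ℤ)) (A : Fields r m) {N : ℤ} (hN : N ≠ 0)
    (hA : ∀ p : ℕ, p.Prime → ¬ (p : ℤ) ∣ N → ∀ s, (MvPolynomial.X s : MvPolynomial (Fin m) (ZMod p)) ^ e ∈
      Ideal.span (Set.range (Pool.Agent.H446.AP9.hz fun s => Pool.Agent.H446.AP9.rd p (A s))))
    {p : ℕ} (hp : p.Prime) {y : ℝ} (hy : (N.natAbs : ℝ) ≤ y) (hyp : y < p) {ω : Fin m → ℂ} (h : Good A₀ A p ω) :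
    Pool.Agent.H446.AP5.TestC (fun _ => 1) p (e * p) ω := by
  have : Fact p.Prime := ⟨hp⟩
  have hpN : ¬ (p : ℤ) ∣ N := by
    intro hd
    have h1 := Int.natAbs_dvd_natAbs.2 hd
    rw [Int.natAbs_natCast] at h1
    have h2 := Nat.le_of_dvd (Int.natAbs_pos.2 hN) h1
    have h3 : (p : ℝ) ≤ N.natAbs := by exact_mod_cast h2
    linarith
  refine Pool.Agent.H446.AP9.testC_of_nilp A₀ A (hA p hp hpN) (fun s => h.1 s) fun j l => ?_
  rw [mem_iff, ← curv_conn]
  exact h.2 j l

/-- **Theorem.** Let `A_0` and `A_1, …, A_m` be matrices of size `r` over `ℤ⟦z⟧` such that `∑ c_s A_s` is not nilpotent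
for all `c ≠ 0` in `ℂ ^ m`, and let `∇_ω = d/dz + A_0 + ∑ ω_s A_s`. There are `e ≥ 1` and `p₀ ≥ 1` that depend only on
`A_1, …, A_m` (with `e = 1` for `r = 1`) such that the following holds for all `A_0` and all `ω` with algebraic
coordinates of absolute logarithmic height at most `H`.
(1) There is a constant `C` that depends only on `m` and `e` such that for `p₀ ≤ y ≤ x ≤ D` the sum of `log p / p` over
the bad primes `y < p ≤ x` is at least `log (x / y) - 2 e m H - C`. Here `D` is the least integer such that the monomials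
in the `ω_s` of degree at most `D` span `ℚ(ω)`.
(2) Let `m ≥ 1`. For `0 < β` and `M` there is a constant `C ≥ 1` that depends only on `m`, `e`, `β` and `M` such that for
`y ≥ p₀`, `H ≥ 0` and `x = C y exp (2 e m H / β)` there are only finitely many `ω` with coordinates of height at most
`H`, of all degrees together, for which the sum of `log p / p` over the bad primes `y < p ≤ x` is at most
`(1 - β) log (x / y) + M`; they have the degree `[ℚ(ω) : ℚ] < (x + 1) ^ m`.
(3) One has `[ℚ(ω) : ℚ] ≤ (D + 1) ^ m`.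
(4) For `r = 1` the condition on `A_1, …, A_m` holds if they are linearly independent over `ℂ`.
(5) If the `p`-curvature of `∇_ω` vanishes modulo `p`, then it is nilpotent modulo `p`. -/
theorem result :
    (∃ (C₁ : ℕ → ℕ → ℝ) (C₂ : ℕ → ℕ → ℝ → ℝ → ℝ), ∀ (r m : ℕ) (A : Fields r m), IsVeryStable A →
      ∃ e p₀ : ℕ, 1 ≤ e ∧ 1 ≤ p₀ ∧ (r = 1 → e = 1) ∧ ∀ A₀ : Matrix (Fin r) (Fin r) (PowerSeries ℤ),
        (∀ (ω : Fin m → ℂ) (y x H : ℝ), p₀ ≤ y → y ≤ x → 0 ≤ H → (∀ s, HeightLE (ω s) H) → x ≤ spanDegree ω →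
          Real.log (x / y) - 2 * e * m * H - C₁ m e ≤ badSum A₀ A y x ω) ∧
        ∀ β M : ℝ, 0 < m → 0 < β → 1 ≤ C₂ m e β M ∧ ∀ y H x : ℝ, p₀ ≤ y → 0 ≤ H →
          x = C₂ m e β M * y * Real.exp (2 * e * m * H / β) →
            (Few A₀ A β M y x H).Finite ∧ ∀ ω ∈ Few A₀ A β M y x H, (fieldDegree ω : ℝ) < (x + 1) ^ m) ∧
    (∀ (m : ℕ) (ω : Fin m → ℂ), (∀ s, IsAlgebraic ℚ (ω s)) → fieldDegree ω ≤ (spanDegree ω + 1) ^ m) ∧
    (∀ (m : ℕ) (A : Fields 1 m), (LinearIndependent ℂ fun s => PowerSeries.map (Int.castRingHom ℂ) (A s 0 0)) →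
      IsVeryStable A) ∧
    ∀ (r m : ℕ) (A₀ : Matrix (Fin r) (Fin r) (PowerSeries ℤ)) (A : Fields r m) (p : ℕ) (ω : Fin m → ℂ), p.Prime →
      Vanishing A₀ A p ω → Nilpotent A₀ A p ω := by
  classical
  have hsp : ∀ {m : ℕ} (ω : Fin m → ℂ), Pool.Agent.H446.AP5.sdeg (fun _ => 1) ω = spanDegree ω := by
    intro m ω
    unfold Pool.Agent.H446.AP5.sdeg spanDegree Pool.Agent.H446.AP5.wt Pool.Agent.H446.AP5.mon
    simp only [mul_one]
  refine ⟨?_, fun m ω hω => ?_, fun m A hA c hc => ?_, fun r m A₀ A p ω hp h => ?_⟩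
  · have h1 : ∀ m e : ℕ, ∃ C : ℝ, 0 < e → ∀ (G : ℕ → Prop) (y x H : ℝ), 1 ≤ y → y ≤ x → 0 ≤ H →
        ∀ (ω : Fin m → ℂ) (P : Fin m → ℤ[X]), (∀ i, Pool.Agent.H446.AP.Orb (P i) ∧
          Real.log (Pool.Agent.H446.AP.mm (P i)) ≤ (P i).natDegree * H ∧ aeval (ω i) (P i) = 0) →
        (∀ p ∈ Pool.Agent.H446.AP2.prs y x, G p → Pool.Agent.H446.AP5.TestC (fun _ => 1) p (e * p) ω) →
          x ≤ Pool.Agent.H446.AP5.sdeg (fun _ => 1) ω →
            Real.log (x / y) - 2 * (1 : ℕ) * e * Fintype.card (Fin m) * H - C ≤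
              Pool.Agent.H446.AP5.bad5 G y x := by
      intro m e
      rcases Nat.eq_zero_or_pos e with h | h
      · exact ⟨0, fun h' => absurd h' (by omega)⟩
      · obtain ⟨C, -, hC⟩ := Pool.Agent.H446.AP9.single9 (σ := Fin m) (d := fun _ => 1) (n := 1) one_pos h
          (fun _ => ⟨le_refl 1, le_refl 1⟩)
        exact ⟨C, fun _ => hC⟩
    have h2 : ∀ (m e : ℕ) (β M : ℝ), ∃ C : ℝ, 0 < e → 0 < m → 0 < β → 1 ≤ C ∧
        ∀ (G : ℕ → (Fin m → ℂ) → Prop) (y H x : ℝ), 1 ≤ y → 0 ≤ H →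
        x = C * y * Real.exp (2 * (1 : ℕ) * e * Fintype.card (Fin m) * H / β) →
          (∀ p ∈ Pool.Agent.H446.AP2.prs y x, ∀ ω, G p ω →
            Pool.Agent.H446.AP5.TestC (fun _ => 1) p (e * p) ω) →
            (Pool.Agent.H446.AP5.Few5 G β M y x H).Finite ∧ ∀ ω ∈ Pool.Agent.H446.AP5.Few5 G β M y x H,
              (Pool.Agent.H446.AP5.fdeg ω : ℝ) < (x + 1) ^ Fintype.card (Fin m) := by
      intro m e β M
      by_cases h : 0 < e ∧ 0 < m ∧ 0 < β
      · obtain ⟨C, hC1, hC⟩ := Pool.Agent.H446.AP9.finite9 (σ := Fin m) (d := fun _ => 1) (n := 1) one_pos h.1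
          (fun _ => ⟨le_refl 1, le_refl 1⟩) (by rw [Fintype.card_fin]; exact h.2.1) h.2.2 M
        exact ⟨C, fun _ _ _ => ⟨hC1, hC⟩⟩
      · exact ⟨0, fun h1 h2 h3 => absurd ⟨h1, h2, h3⟩ h⟩
    choose C₁ hC₁ using h1
    choose C₂ hC₂ using h2
    refine ⟨C₁, C₂, fun r m A hA => ?_⟩
    obtain ⟨e, he, he1, N, hN, hN'⟩ := Pool.Agent.H446.AP9.exists_exp A hA
    refine ⟨e, N.natAbs, he, Int.natAbs_pos.2 hN, he1, fun A₀ => ⟨fun ω y x H hy hyx hH hω hx => ?_,
      fun β M hm hβ => ⟨(hC₂ m e β M he hm hβ).1, fun y H x hy hH hx => ?_⟩⟩⟩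
    · have hN1 : (1 : ℝ) ≤ N.natAbs := by exact_mod_cast Int.natAbs_pos.2 hN
      choose P hP using fun s => height_iff.1 (hω s)
      have h1 := hC₁ m e he (fun p => Good A₀ A p ω) y x H (by linarith) hyx hH ω P hP (fun p hp hg => by
        have h3 := (mem_prs (by linarith)).1 hp
        exact test A₀ A hN hN' h3.1 hy h3.2.1 hg) (by rw [hsp]; exact hx)
      rw [badSum_eq A₀ A (by linarith), Fintype.card_fin, Nat.cast_one, mul_one] at h1
      exact h1
    · have hN1 : (1 : ℝ) ≤ N.natAbs := by exact_mod_cast Int.natAbs_pos.2 hN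
      obtain ⟨hC1, hC⟩ := hC₂ m e β M he hm hβ
      have hy0 : 0 ≤ y := by linarith
      have hC0 : 0 ≤ C₂ m e β M := by linarith
      have hx0 : 0 ≤ x := by
        rw [hx]
        exact mul_nonneg (mul_nonneg hC0 hy0) (Real.exp_pos _).le
      have h1 := hC (fun p ω => Good A₀ A p ω) y H x (by linarith) hH (by
        rw [Fintype.card_fin, Nat.cast_one, mul_one]
        exact hx) fun p hp ω hg => by
          have h3 := (mem_prs hx0).1 hp
          exact test A₀ A hN hN' h3.1 hy h3.2.1 hg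
      have h2 : Pool.Agent.H446.AP5.Few5 (fun p ω => Good A₀ A p ω) β M y x H = Few A₀ A β M y x H := by
        ext ω
        unfold Pool.Agent.H446.AP5.Few5 Few
        rw [Set.mem_ofPred_eq, Set.mem_ofPred_eq, badSum_eq A₀ A hx0]
        refine and_congr_left fun _ => ?_
        constructor
        · rintro ⟨P, hP⟩ s
          exact height_iff.2 ⟨P s, hP s⟩
        · intro h
          choose P hP using fun s => height_iff.1 (h s)
          exact ⟨P, hP⟩
      rw [h2, Fintype.card_fin] at h1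
      exact h1
  · have h1 := Pool.Agent.H446.AP5.fdeg_le (d := fun _ => 1) (fun _ => le_refl 1) hω
    rwa [hsp, Fintype.card_fin] at h1
  · obtain ⟨k, hk⟩ := hc
    have h1 : ∀ k : ℕ, (higgs A c ^ k) 0 0 = (higgs A c 0 0) ^ k := by
      intro k
      induction k with
      | zero => rw [pow_zero, pow_zero, Matrix.one_apply_eq]
      | succ k ih =>
        rw [pow_succ, Matrix.mul_apply, Fin.sum_univ_one, ih, pow_succ]
    have h2 : higgs A c 0 0 = 0 := by
      have h3 := h1 k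
      rw [hk, Matrix.zero_apply] at h3
      rcases Nat.eq_zero_or_pos k with h | h
      · rw [h, pow_zero] at h3
        exact absurd h3 zero_ne_one
      · exact (pow_eq_zero_iff h.ne').1 h3.symm
    have h3 : ∑ s, c s • PowerSeries.map (Int.castRingHom ℂ) (A s 0 0) = 0 := by
      rw [← h2]
      show _ = ∑ s, PowerSeries.C (c s) * PowerSeries.map (Int.castRingHom ℂ) (A s 0 0)
      refine Finset.sum_congr rfl fun s _ => ?_
      rw [PowerSeries.smul_eq_C_mul]
    funext s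
    exact Fintype.linearIndependent_iff.1 hA c h3 s
  · have hfact : Fact p.Prime := ⟨hp⟩
    intro j l
    rw [← mem_iff]
    exact nilp_of_vanish (fun i j l => (mem_iff _).2 (h i j l)) j l

end Pool.Agent.Results.MP_0707f5_ag.VeryStable
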